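import Pool.Agent.Q56.SI.Gen

/-!
# The fourth moment over very short intervals: the integral and the measure of the large values

Adapted from the starting files `Pool.Agent.W928.MW.{Int,Arc}`.
-/

set_option autoImplicit false

open Finset MeasureTheory

namespace Pool.Agent.Q56.SI

open Pool.Agent.W928.MW (e e_add e_norm)

lemma harm (N : ℕ) : ∑ j ∈ Icc 1 N, 1 / (j : ℝ) ≤ 1 + Real.log N := by
  have h := harmonic_le_one_add_log N
  rw [harmonic_eq_sum_Icc] at h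
  push_cast at h
  simpa [one_div] using h

lemma side (s : Finset ℕ) (N : ℕ) (g : ℕ → ℕ) (hg : Set.InjOn g s) (hm : ∀ y ∈ s, g y ∈ Icc 1 N) :
    ∑ y ∈ s, 1 / (g y : ℝ) ≤ 1 + Real.log N := by
  rw [← Finset.sum_image (f := fun j : ℕ => 1 / (j : ℝ)) hg]
  refine (Finset.sum_le_sum_of_subset_of_nonneg ?_ ?_).trans (harm N)
  · intro j hj
    obtain ⟨y, hy, rfl⟩ := Finset.mem_image.1 hj
    exact hm y hy
  · intro j _ _
    positivity

lemma recip (M N x : ℕ) (hx : x ∈ Ioc M N) :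
    ∑ y ∈ (Ioc M N).filter (fun y => y ≠ x), 1 / |(x : ℝ) - (y : ℝ)| ≤ 2 * (1 + Real.log N) := by
  rw [mem_Ioc] at hx
  have h0 : (Ioc M N).filter (fun y => y ≠ x) =
      (Ioc M N).filter (fun y => y < x) ∪ (Ioc M N).filter (fun y => x < y) := by
    ext y
    simp only [mem_filter, mem_union, mem_Ioc]
    omega
  have hd : Disjoint ((Ioc M N).filter (fun y => y < x)) ((Ioc M N).filter (fun y => x < y)) := by
    rw [Finset.disjoint_filter]
    intro y _ h
    omega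
  rw [h0, Finset.sum_union hd]
  have h1 : ∑ y ∈ (Ioc M N).filter (fun y => y < x), 1 / |(x : ℝ) - (y : ℝ)| ≤ 1 + Real.log N := by
    refine le_trans (le_of_eq ?_) (side ((Ioc M N).filter (fun y => y < x)) N (fun y => x - y) ?_ ?_)
    · apply Finset.sum_congr rfl
      intro y hy
      rw [mem_filter] at hy
      have : (y : ℝ) < x := by exact_mod_cast hy.2
      rw [Nat.cast_sub hy.2.le, abs_of_pos (by linarith)]
    · intro a ha b hb hab
      simp only [coe_filter, Set.mem_setOf_eq, mem_Ioc] at ha hb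
      simp only at hab
      omega
    · intro y hy
      simp only [mem_filter, mem_Ioc] at hy
      simp only [mem_Icc]
      omega
  have h2 : ∑ y ∈ (Ioc M N).filter (fun y => x < y), 1 / |(x : ℝ) - (y : ℝ)| ≤ 1 + Real.log N := by
    refine le_trans (le_of_eq ?_) (side ((Ioc M N).filter (fun y => x < y)) N (fun y => y - x) ?_ ?_)
    · apply Finset.sum_congr rfl
      intro y hy
      rw [mem_filter] at hy
      have : (x : ℝ) < y := by exact_mod_cast hy.2
      rw [Nat.cast_sub hy.2.le, abs_sub_comm, abs_of_pos (by linarith)]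
    · intro a ha b hb hab
      simp only [coe_filter, Set.mem_setOf_eq, mem_Ioc] at ha hb
      simp only at hab
      omega
    · intro y hy
      simp only [mem_filter, mem_Ioc] at hy
      simp only [mem_Icc]
      omega
  linarith

theorem sum_hc (M N : ℕ) (hM : 1 ≤ M) (hMN : M ≤ N) :
    ∑ z ∈ (Ioc M N) ×ˢ (Ioc M N), ∑ w ∈ pr M N (z.1 + z.2), hc z.1 w.1 w.2 ≤
      4 * (1 + Real.log N) ^ 2 / M := by
  have hL : 0 ≤ 1 + Real.log N := by
    have : 0 ≤ Real.log (N : ℝ) := Real.log_nonneg (by exact_mod_cast hM.trans hMN)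
    linarith
  have h0 : ∀ x ∈ Ioc M N, ∑ x' ∈ Ioc M N, ∑ w ∈ pr M N (x + x'), hc x w.1 w.2 ≤
      (2 * (1 + Real.log N)) ^ 2 * ((x : ℝ) ^ 2)⁻¹ := by
    intro x hx
    have h1 : ∑ x' ∈ Ioc M N, ∑ w ∈ pr M N (x + x'), hc x w.1 w.2 =
        ∑ w ∈ (Ioc M N) ×ˢ (Ioc M N), ∑ x' ∈ (Ioc M N).filter (fun x' => w.1 + w.2 = x + x'),
          hc x w.1 w.2 := by
      have e1 : ∀ x' ∈ Ioc M N, ∑ w ∈ pr M N (x + x'), hc x w.1 w.2 =
          ∑ w ∈ (Ioc M N) ×ˢ (Ioc M N), if w.1 + w.2 = x + x' then hc x w.1 w.2 else 0 := by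
        intro x' _
        unfold pr
        rw [Finset.sum_filter]
      rw [Finset.sum_congr rfl e1, Finset.sum_comm]
      apply Finset.sum_congr rfl
      intro w _
      rw [Finset.sum_filter]
    have h2 : ∑ x' ∈ Ioc M N, ∑ w ∈ pr M N (x + x'), hc x w.1 w.2 ≤
        ∑ w ∈ (Ioc M N) ×ˢ (Ioc M N), hc x w.1 w.2 := by
      rw [h1]
      apply Finset.sum_le_sum
      intro w _
      rw [Finset.sum_const, nsmul_eq_mul]
      have h3 : ((Ioc M N).filter (fun x' => w.1 + w.2 = x + x')).card ≤ 1 := by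
        rw [Finset.card_le_one]
        intro a ha b hb
        rw [Finset.mem_filter] at ha hb
        omega
      have h4 : ((((Ioc M N).filter (fun x' => w.1 + w.2 = x + x')).card : ℕ) : ℝ) ≤ 1 := by
        exact_mod_cast h3
      have h5 := hc_nonneg x w.1 w.2
      nlinarith
    refine h2.trans ?_
    have h6 : ∑ w ∈ (Ioc M N) ×ˢ (Ioc M N), hc x w.1 w.2 =
        (∑ y ∈ (Ioc M N).filter (fun y => y ≠ x), 1 / |(x : ℝ) - (y : ℝ)|) ^ 2 * ((x : ℝ) ^ 2)⁻¹ := by
      rw [sq, Finset.sum_mul_sum, Finset.sum_product, Finset.sum_mul, Finset.sum_filter]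
      apply Finset.sum_congr rfl
      intro y _
      by_cases hy : y ≠ x
      · rw [if_pos hy, Finset.sum_mul, Finset.sum_filter]
        apply Finset.sum_congr rfl
        intro z _
        unfold hc
        by_cases hzx : z ≠ x
        · rw [if_pos ⟨hy, hzx⟩, if_pos hzx]
          rw [one_div_mul_one_div, ← one_div ((x : ℝ) ^ 2), one_div_mul_one_div]
        · rw [if_neg (fun h => hzx h.2), if_neg hzx]
      · rw [if_neg hy]
        apply Finset.sum_eq_zero
        intro z _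
        unfold hc
        rw [if_neg (fun h => hy h.1)]
    rw [h6]
    apply mul_le_mul_of_nonneg_right _ (by positivity)
    apply pow_le_pow_left₀ _ (recip M N x hx)
    apply Finset.sum_nonneg
    intro y _
    positivity
  rw [Finset.sum_product]
  refine (Finset.sum_le_sum h0).trans ?_
  rw [← Finset.mul_sum]
  have h7 := sum_Ioc_inv_sq_le_sub (α := ℝ) (k := M) (n := N) (by omega) hMN
  have h8 : (0 : ℝ) ≤ (N : ℝ)⁻¹ := by positivity
  have h9 : ∑ i ∈ Ioc M N, ((i : ℝ) ^ 2)⁻¹ ≤ (M : ℝ)⁻¹ := by linarith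
  calc (2 * (1 + Real.log N)) ^ 2 * ∑ i ∈ Ioc M N, ((i : ℝ) ^ 2)⁻¹
      ≤ (2 * (1 + Real.log N)) ^ 2 * (M : ℝ)⁻¹ := mul_le_mul_of_nonneg_left h9 (by positivity)
    _ = 4 * (1 + Real.log N) ^ 2 / M := by rw [div_eq_mul_inv]; ring

theorem int_main (c : ℕ → ℂ) (hcn : ∀ n, ‖c n‖ ≤ 1) (k M N : ℕ) (hk4 : 4 ≤ k) (hM : 1 ≤ M)
    (hMN : M ≤ N) (u v : ℝ) (huv : u ≤ v) :
    ∫ t in u..v, Qc c k M N t ≤ 2 * (N : ℝ) ^ 2 * (v - u) +
      4 * (1 + Real.log N) ^ 2 / (M : ℝ) ^ (k - 3) := by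
  have hvu : 0 ≤ v - u := by linarith
  have h1 : ∫ t in u..v, Qc c k M N t = ∑ m ∈ range (2 * N + 1), ∑ z ∈ pr M N m, ∑ w ∈ pr M N m,
      ∫ t in u..v, ‖gm c z w‖ * Real.cos (2 * Real.pi *
      (t * (((z.1 : ℝ) ^ k + (z.2 : ℝ) ^ k) - ((w.1 : ℝ) ^ k + (w.2 : ℝ) ^ k))) +
        Complex.arg (gm c z w)) := by
    have e0 : (fun t => Qc c k M N t) = fun t => ∑ m ∈ range (2 * N + 1), ∑ z ∈ pr M N m,
        ∑ w ∈ pr M N m, ‖gm c z w‖ * Real.cos (2 * Real.pi *
        (t * (((z.1 : ℝ) ^ k + (z.2 : ℝ) ^ k) - ((w.1 : ℝ) ^ k + (w.2 : ℝ) ^ k))) +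
        Complex.arg (gm c z w)) := by
      funext t
      unfold Qc
      apply Finset.sum_congr rfl
      intro m _
      exact pc_sq c k M N m t
    have ec : ∀ r d b : ℝ, Continuous fun t : ℝ => r * Real.cos (2 * Real.pi * (t * d) + b) := by
      intro r d b
      fun_prop
    rw [e0, intervalIntegral.integral_finset_sum]
    · apply Finset.sum_congr rfl
      intro m _
      rw [intervalIntegral.integral_finset_sum]
      · apply Finset.sum_congr rfl
        intro z _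
        rw [intervalIntegral.integral_finset_sum]
        intro w _
        exact (ec _ _ _).intervalIntegrable _ _
      · intro z _
        exact (continuous_finsetSum _ (fun w _ => ec _ _ _)).intervalIntegrable _ _
    · intro m _
      exact (continuous_finsetSum _ (fun z _ =>
        continuous_finsetSum _ (fun w _ => ec _ _ _))).intervalIntegrable _ _
  rw [h1]
  have h2 : ∑ m ∈ range (2 * N + 1), ∑ z ∈ pr M N m, ∑ w ∈ pr M N m,
      (∫ t in u..v, ‖gm c z w‖ * Real.cos (2 * Real.pi *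
      (t * (((z.1 : ℝ) ^ k + (z.2 : ℝ) ^ k) - ((w.1 : ℝ) ^ k + (w.2 : ℝ) ^ k))) +
        Complex.arg (gm c z w))) =
      ∑ z ∈ (Ioc M N) ×ˢ (Ioc M N), ∑ w ∈ pr M N (z.1 + z.2),
      (∫ t in u..v, ‖gm c z w‖ * Real.cos (2 * Real.pi *
      (t * (((z.1 : ℝ) ^ k + (z.2 : ℝ) ^ k) - ((w.1 : ℝ) ^ k + (w.2 : ℝ) ^ k))) +
        Complex.arg (gm c z w))) := by
    rw [← Finset.sum_fiberwise_of_maps_to (s := (Ioc M N) ×ˢ (Ioc M N)) (t := range (2 * N + 1))
      (g := fun z : ℕ × ℕ => z.1 + z.2)]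
    · apply Finset.sum_congr rfl
      intro m _
      apply Finset.sum_congr rfl
      intro z hz
      unfold pr at hz
      rw [Finset.mem_filter] at hz
      rw [hz.2]
    · intro z hz
      rw [Finset.mem_product, Finset.mem_Ioc, Finset.mem_Ioc] at hz
      rw [Finset.mem_range]
      omega
  rw [h2]
  have h3 : ∑ z ∈ (Ioc M N) ×ˢ (Ioc M N), ∑ w ∈ pr M N (z.1 + z.2),
      (∫ t in u..v, ‖gm c z w‖ * Real.cos (2 * Real.pi *
      (t * (((z.1 : ℝ) ^ k + (z.2 : ℝ) ^ k) - ((w.1 : ℝ) ^ k + (w.2 : ℝ) ^ k))) +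
        Complex.arg (gm c z w))) ≤
      ∑ z ∈ (Ioc M N) ×ˢ (Ioc M N), ∑ w ∈ pr M N (z.1 + z.2),
      ((if w = z then (v - u) else 0) + (if w = (z.2, z.1) then (v - u) else 0) +
        1 / (M : ℝ) ^ (k - 4) * hc z.1 w.1 w.2) := by
    apply Finset.sum_le_sum
    intro z hz
    apply Finset.sum_le_sum
    intro w hw
    exact term_le c hcn k M N hk4 hM u v huv z w hz hw
  refine h3.trans ?_
  have h4 : ∀ z ∈ (Ioc M N) ×ˢ (Ioc M N), ∑ w ∈ pr M N (z.1 + z.2),
      ((if w = z then (v - u) else 0) + (if w = (z.2, z.1) then (v - u) else 0) +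
        1 / (M : ℝ) ^ (k - 4) * hc z.1 w.1 w.2) ≤
      2 * (v - u) + 1 / (M : ℝ) ^ (k - 4) * ∑ w ∈ pr M N (z.1 + z.2), hc z.1 w.1 w.2 := by
    intro z _
    rw [Finset.sum_add_distrib, Finset.sum_add_distrib, ← Finset.mul_sum]
    have b1 : ∑ w ∈ pr M N (z.1 + z.2), (if w = z then (v - u) else 0) ≤ v - u := by
      rw [Finset.sum_ite_eq']
      split_ifs <;> linarith
    have b2 : ∑ w ∈ pr M N (z.1 + z.2), (if w = (z.2, z.1) then (v - u) else 0) ≤ v - u := by
      rw [Finset.sum_ite_eq']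
      split_ifs <;> linarith
    linarith
  refine (Finset.sum_le_sum h4).trans ?_
  rw [Finset.sum_add_distrib, Finset.sum_const, Finset.card_product, Nat.card_Ioc, nsmul_eq_mul,
    ← Finset.mul_sum]
  have hM0 : (1 : ℝ) ≤ M := by exact_mod_cast hM
  have h5 := mul_le_mul_of_nonneg_left (sum_hc M N hM hMN)
    (by positivity : (0 : ℝ) ≤ 1 / (M : ℝ) ^ (k - 4))
  have h6 : (((N - M) * (N - M) : ℕ) : ℝ) ≤ (N : ℝ) ^ 2 := by
    have : (N - M) * (N - M) ≤ N ^ 2 := by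
      rw [sq]
      exact Nat.mul_le_mul (Nat.sub_le _ _) (Nat.sub_le _ _)
    exact_mod_cast this
  have h7 : 1 / (M : ℝ) ^ (k - 4) * (4 * (1 + Real.log N) ^ 2 / M) =
      4 * (1 + Real.log N) ^ 2 / (M : ℝ) ^ (k - 3) := by
    rw [show k - 3 = (k - 4) + 1 by omega, pow_succ (M : ℝ) (k - 4)]
    field_simp
  rw [h7] at h5
  have h8 := mul_le_mul_of_nonneg_right h6 (by positivity : (0 : ℝ) ≤ 2 * (v - u))
  linarith

theorem e_cont : Continuous e := by
  unfold e
  fun_prop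

theorem pc_cont (c : ℕ → ℂ) (k M N m : ℕ) : Continuous (pc c k M N m) := by
  unfold pc
  refine continuous_finsetSum _ (fun z _ => ?_)
  exact continuous_const.mul (e_cont.comp (by fun_prop))

theorem Qc_cont (c : ℕ → ℂ) (k M N : ℕ) : Continuous (Qc c k M N) := by
  unfold Qc
  refine continuous_finsetSum _ (fun m _ => ?_)
  exact ((pc_cont c k M N m).norm).pow 2

theorem Qc_nonneg (c : ℕ → ℂ) (k M N : ℕ) (t : ℝ) : 0 ≤ Qc c k M N t := by
  unfold Qc
  positivity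

theorem meas_le (c : ℕ → ℂ) (k M N : ℕ) (u v lam B : ℝ) (huv : u ≤ v) (hl : 0 < lam)
    (hB : ∫ t in u..v, Qc c k M N t ≤ B) :
    volume {t : ℝ | t ∈ Set.Icc u v ∧ ∃ ξ : ℝ, lam ≤ ‖sc c k M N t ξ‖} ≤
      ENNReal.ofReal ((2 * (N : ℝ) + 1) * B / lam ^ 4) := by
  set ρ : ℝ := lam ^ 4 / (2 * (N : ℝ) + 1) with hρ
  have hN0 : (0 : ℝ) < 2 * (N : ℝ) + 1 := by positivity
  have hρ0 : 0 < ρ := by positivity
  have hsub : {t : ℝ | t ∈ Set.Icc u v ∧ ∃ ξ : ℝ, lam ≤ ‖sc c k M N t ξ‖} ⊆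
      {t : ℝ | ρ ≤ Qc c k M N t} ∩ Set.Icc u v := by
    rintro t ⟨ht, ξ, hξ⟩
    refine ⟨?_, ht⟩
    have h1 := sup c k M N t ξ
    have h2 : lam ^ 4 ≤ ‖sc c k M N t ξ‖ ^ 4 := pow_le_pow_left₀ hl.le hξ 4
    simp only [Set.mem_setOf_eq]
    rw [hρ, div_le_iff₀ hN0]
    linarith
  have hmeas : MeasurableSet {t : ℝ | ρ ≤ Qc c k M N t} :=
    (isClosed_le continuous_const (Qc_cont c k M N)).measurableSet
  have hint : Integrable (Qc c k M N) (volume.restrict (Set.Icc u v)) :=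
    ((Qc_cont c k M N).continuousOn).integrableOn_Icc
  have h3 := mul_meas_ge_le_integral_of_nonneg (μ := volume.restrict (Set.Icc u v))
    (f := Qc c k M N) (Filter.Eventually.of_forall (Qc_nonneg c k M N)) hint ρ
  have h4 : ∫ x, Qc c k M N x ∂(volume.restrict (Set.Icc u v)) = ∫ t in u..v, Qc c k M N t := by
    rw [intervalIntegral.integral_of_le huv, integral_Icc_eq_integral_Ioc]
  rw [h4] at h3
  have h5 : (volume.restrict (Set.Icc u v)).real {t : ℝ | ρ ≤ Qc c k M N t} =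
      (volume ({t : ℝ | ρ ≤ Qc c k M N t} ∩ Set.Icc u v)).toReal := by
    unfold Measure.real
    rw [Measure.restrict_apply hmeas]
  rw [h5] at h3
  have hfin : volume ({t : ℝ | ρ ≤ Qc c k M N t} ∩ Set.Icc u v) ≠ ⊤ := by
    refine ne_top_of_le_ne_top ?_ (measure_mono Set.inter_subset_right)
    rw [Real.volume_Icc]
    exact ENNReal.ofReal_ne_top
  refine (measure_mono hsub).trans ?_
  rw [← ENNReal.ofReal_toReal hfin]
  apply ENNReal.ofReal_le_ofReal
  have h6 : (volume ({t : ℝ | ρ ≤ Qc c k M N t} ∩ Set.Icc u v)).toReal ≤ B / ρ := by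
    rw [le_div_iff₀ hρ0]
    linarith [h3.trans hB, mul_comm ρ (volume ({t : ℝ | ρ ≤ Qc c k M N t} ∩ Set.Icc u v)).toReal]
  refine h6.trans (le_of_eq ?_)
  rw [hρ]
  field_simp

end Pool.Agent.Q56.SI
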