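import Pool.Agent.W928.MW.Int
import Pool.Agent.W225.MWDIO

/-!
# The fourth moment of Weyl sums with arbitrary coefficients over very short intervals

Adapted from the starting files `Pool.Agent.W928.MW.{Sup,Int,Arc}`: coefficients `c n`, and only the
integers `M < n ≤ N`, which makes the bound effective on intervals shorter than `1 / N ^ 2`.
-/

set_option autoImplicit false

open Finset MeasureTheory

namespace Pool.Agent.Q56.SI

open Pool.Agent.W928.MW (e e_add e_norm)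

/-- the sum over `M < n ≤ N` with coefficients -/
noncomputable def sc (c : ℕ → ℂ) (k M N : ℕ) (t ξ : ℝ) : ℂ :=
  ∑ n ∈ Ioc M N, c n * e (t * (n : ℝ) ^ k + ξ * (n : ℝ))

/-- pairs with sum `m` -/
def pr (M N m : ℕ) : Finset (ℕ × ℕ) := ((Ioc M N) ×ˢ (Ioc M N)).filter (fun z => z.1 + z.2 = m)

noncomputable def pc (c : ℕ → ℂ) (k M N m : ℕ) (t : ℝ) : ℂ :=
  ∑ z ∈ pr M N m, (c z.1 * c z.2) * e (t * ((z.1 : ℝ) ^ k + (z.2 : ℝ) ^ k))

noncomputable def Qc (c : ℕ → ℂ) (k M N : ℕ) (t : ℝ) : ℝ :=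
  ∑ m ∈ range (2 * N + 1), ‖pc c k M N m t‖ ^ 2

theorem sc_sq (c : ℕ → ℂ) (k M N : ℕ) (t ξ : ℝ) :
    sc c k M N t ξ ^ 2 = ∑ m ∈ range (2 * N + 1), e (ξ * m) * pc c k M N m t := by
  have h1 : sc c k M N t ξ ^ 2 = ∑ z ∈ (Ioc M N) ×ˢ (Ioc M N),
      e (ξ * ((z.1 + z.2 : ℕ) : ℝ)) * ((c z.1 * c z.2) * e (t * ((z.1 : ℝ) ^ k + (z.2 : ℝ) ^ k))) := by
    rw [sq]
    unfold sc
    rw [Finset.sum_mul_sum, ← Finset.sum_product']
    apply Finset.sum_congr rfl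
    intro z _
    have : e (ξ * ((z.1 + z.2 : ℕ) : ℝ)) * e (t * ((z.1 : ℝ) ^ k + (z.2 : ℝ) ^ k)) =
        e (t * (z.1 : ℝ) ^ k + ξ * (z.1 : ℝ)) * e (t * (z.2 : ℝ) ^ k + ξ * (z.2 : ℝ)) := by
      rw [← e_add, ← e_add]
      congr 1
      push_cast
      ring
    calc _ = (c z.1 * c z.2) *
        (e (t * (z.1 : ℝ) ^ k + ξ * (z.1 : ℝ)) * e (t * (z.2 : ℝ) ^ k + ξ * (z.2 : ℝ))) := by ring
      _ = _ := by rw [← this]; ring
  rw [h1, ← Finset.sum_fiberwise_of_maps_to (s := (Ioc M N) ×ˢ (Ioc M N)) (t := range (2 * N + 1))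
    (g := fun z : ℕ × ℕ => z.1 + z.2)]
  · apply Finset.sum_congr rfl
    intro m _
    unfold pc pr
    rw [Finset.mul_sum]
    apply Finset.sum_congr rfl
    intro z hz
    rw [Finset.mem_filter] at hz
    rw [hz.2]
  · intro z hz
    rw [Finset.mem_product, Finset.mem_Ioc, Finset.mem_Ioc] at hz
    rw [Finset.mem_range]
    omega

theorem sup (c : ℕ → ℂ) (k M N : ℕ) (t ξ : ℝ) :
    ‖sc c k M N t ξ‖ ^ 4 ≤ (2 * (N : ℝ) + 1) * Qc c k M N t := by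
  have h1 : ‖sc c k M N t ξ‖ ^ 4 = ‖sc c k M N t ξ ^ 2‖ ^ 2 := by
    rw [norm_pow]; ring
  rw [h1, sc_sq]
  have h2 : ‖∑ m ∈ range (2 * N + 1), e (ξ * m) * pc c k M N m t‖ ≤
      ∑ m ∈ range (2 * N + 1), ‖pc c k M N m t‖ := by
    refine (norm_sum_le _ _).trans (le_of_eq ?_)
    apply Finset.sum_congr rfl
    intro m _
    rw [norm_mul, e_norm, one_mul]
  have h3 := sq_sum_le_card_mul_sum_sq (s := range (2 * N + 1)) (f := fun m => ‖pc c k M N m t‖)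
  rw [Finset.card_range] at h3
  have h4 : (((2 * N + 1 : ℕ) : ℝ)) = 2 * (N : ℝ) + 1 := by push_cast; ring
  rw [h4] at h3
  refine le_trans ?_ h3
  exact pow_le_pow_left₀ (norm_nonneg _) h2 2

/-- the coefficient of a pair of pairs -/
noncomputable def gm (c : ℕ → ℂ) (z w : ℕ × ℕ) : ℂ := (c z.1 * c z.2) * (starRingEnd ℂ) (c w.1 * c w.2)

lemma gm_norm {c : ℕ → ℂ} (hc : ∀ n, ‖c n‖ ≤ 1) (z w : ℕ × ℕ) : ‖gm c z w‖ ≤ 1 := by
  unfold gm
  rw [norm_mul, RCLike.norm_conj, norm_mul, norm_mul]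
  have h : ∀ a b : ℕ, ‖c a‖ * ‖c b‖ ≤ 1 := fun a b => mul_le_one₀ (hc a) (norm_nonneg _) (hc b)
  exact mul_le_one₀ (h _ _) (by positivity) (h _ _)

/-- real part of a multiple of `e x` -/
lemma re_mul_e (γ : ℂ) (x : ℝ) : (γ * e x).re = ‖γ‖ * Real.cos (2 * Real.pi * x + Complex.arg γ) := by
  have h := Complex.norm_mul_exp_arg_mul_I γ
  have h2 : γ * e x = (‖γ‖ : ℂ) * Complex.exp (((2 * Real.pi * x + Complex.arg γ : ℝ) : ℂ) * Complex.I) := by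
    unfold e
    nth_rewrite 1 [← h]
    rw [mul_assoc, ← Complex.exp_add]
    congr 2
    push_cast
    ring
  rw [h2, Complex.re_ofReal_mul, Complex.exp_ofReal_mul_I_re]

theorem pc_sq (c : ℕ → ℂ) (k M N m : ℕ) (t : ℝ) : ‖pc c k M N m t‖ ^ 2 =
    ∑ z ∈ pr M N m, ∑ w ∈ pr M N m, ‖gm c z w‖ *
      Real.cos (2 * Real.pi * (t * (((z.1 : ℝ) ^ k + (z.2 : ℝ) ^ k) - ((w.1 : ℝ) ^ k + (w.2 : ℝ) ^ k))) +
        Complex.arg (gm c z w)) := by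
  have h1 : ((‖pc c k M N m t‖ ^ 2 : ℝ) : ℂ) = pc c k M N m t * (starRingEnd ℂ) (pc c k M N m t) := by
    rw [Complex.mul_conj, Complex.normSq_eq_norm_sq]
  have h2 : ‖pc c k M N m t‖ ^ 2 = (pc c k M N m t * (starRingEnd ℂ) (pc c k M N m t)).re := by
    rw [← h1, Complex.ofReal_re]
  rw [h2]
  unfold pc
  rw [map_sum, Finset.sum_mul_sum, Complex.re_sum]
  apply Finset.sum_congr rfl
  intro z _
  rw [Complex.re_sum]
  apply Finset.sum_congr rfl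
  intro w _
  rw [← re_mul_e]
  congr 1
  have h3 : ∀ x : ℝ, (starRingEnd ℂ) (e x) = e (-x) := by
    intro x
    unfold e
    rw [← Complex.exp_conj]
    congr 1
    simp only [map_mul, Complex.conj_ofReal, Complex.conj_I, map_ofNat]
    push_cast
    ring
  rw [map_mul, h3]
  unfold gm
  have h4 : e (t * (((z.1 : ℝ) ^ k + (z.2 : ℝ) ^ k) - ((w.1 : ℝ) ^ k + (w.2 : ℝ) ^ k))) =
      e (t * ((z.1 : ℝ) ^ k + (z.2 : ℝ) ^ k)) * e (-(t * ((w.1 : ℝ) ^ k + (w.2 : ℝ) ^ k))) := by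
    rw [← e_add]
    congr 1
    ring
  rw [h4]
  ring

/-- integrals of cosines -/
lemma int_le (r b d u v : ℝ) (hr0 : 0 ≤ r) (hr : r ≤ 1) (huv : u ≤ v) :
    ∫ t in u..v, r * Real.cos (2 * Real.pi * (t * d) + b) ≤ v - u := by
  have h1 : ∫ t in u..v, r * Real.cos (2 * Real.pi * (t * d) + b) ≤ ∫ t in u..v, (1 : ℝ) := by
    apply intervalIntegral.integral_mono_on huv
    · exact (by fun_prop : Continuous fun t : ℝ =>
        r * Real.cos (2 * Real.pi * (t * d) + b)).intervalIntegrable _ _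
    · exact intervalIntegrable_const
    · intro x _
      have := Real.cos_le_one (2 * Real.pi * (x * d) + b)
      nlinarith
  rw [intervalIntegral.integral_const] at h1
  simpa using h1

lemma int_le2 (r b d u v : ℝ) (hr0 : 0 ≤ r) (hr : r ≤ 1) (hd : d ≠ 0) :
    ∫ t in u..v, r * Real.cos (2 * Real.pi * (t * d) + b) ≤ 1 / |d| := by
  have hpi := Real.pi_pos
  have h0 : (2 * Real.pi * d) ≠ 0 := by positivity
  have h1 : ∫ t in u..v, r * Real.cos (2 * Real.pi * (t * d) + b) =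
      r * ((2 * Real.pi * d)⁻¹ *
        (Real.sin (2 * Real.pi * d * v + b) - Real.sin (2 * Real.pi * d * u + b))) := by
    have h2 : (fun t : ℝ => r * Real.cos (2 * Real.pi * (t * d) + b)) =
        fun t => r * Real.cos (2 * Real.pi * d * t + b) := by
      funext t
      congr 2
      ring
    rw [h2, intervalIntegral.integral_const_mul,
      intervalIntegral.integral_comp_mul_add (fun x => Real.cos x) h0, integral_cos]
    rfl
  rw [h1]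
  refine (le_abs_self _).trans ?_
  rw [abs_mul, abs_mul, abs_inv, abs_mul, abs_of_pos (by positivity : (0:ℝ) < 2 * Real.pi),
    abs_of_nonneg hr0]
  have h3 : |Real.sin (2 * Real.pi * d * v + b) - Real.sin (2 * Real.pi * d * u + b)| ≤ 2 := by
    rw [abs_le]
    have a1 := Real.sin_le_one (2 * Real.pi * d * v + b)
    have a2 := Real.neg_one_le_sin (2 * Real.pi * d * v + b)
    have a3 := Real.sin_le_one (2 * Real.pi * d * u + b)
    have a4 := Real.neg_one_le_sin (2 * Real.pi * d * u + b)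
    constructor <;> linarith
  have hd' : 0 < |d| := abs_pos.mpr hd
  have h4 : (2 * Real.pi * |d|)⁻¹ *
      |Real.sin (2 * Real.pi * d * v + b) - Real.sin (2 * Real.pi * d * u + b)| ≤
      (2 * Real.pi * |d|)⁻¹ * 2 := mul_le_mul_of_nonneg_left h3 (by positivity)
  have h5 : (2 * Real.pi * |d|)⁻¹ * 2 ≤ 1 / |d| := by
    rw [inv_mul_eq_div, div_le_div_iff₀ (by positivity) hd']
    have : (3:ℝ) < Real.pi := Real.pi_gt_three
    nlinarith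
  have h6 : 0 ≤ (2 * Real.pi * |d|)⁻¹ *
      |Real.sin (2 * Real.pi * d * v + b) - Real.sin (2 * Real.pi * d * u + b)| := by positivity
  calc _ ≤ 1 * ((2 * Real.pi * |d|)⁻¹ *
      |Real.sin (2 * Real.pi * d * v + b) - Real.sin (2 * Real.pi * d * u + b)|) :=
        mul_le_mul_of_nonneg_right hr h6
    _ ≤ _ := by rw [one_mul]; exact h4.trans h5

/-- the kernel of the nondiagonal terms -/
noncomputable def hc (x y z : ℕ) : ℝ :=
  if y ≠ x ∧ z ≠ x then 1 / (|(x : ℝ) - (y : ℝ)| * |(x : ℝ) - (z : ℝ)| * (x : ℝ) ^ 2) else 0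

theorem hc_nonneg (x y z : ℕ) : 0 ≤ hc x y z := by
  unfold hc
  split_ifs
  · positivity
  · exact le_refl _

theorem term_le (c : ℕ → ℂ) (hcn : ∀ n, ‖c n‖ ≤ 1) (k M N : ℕ) (hk4 : 4 ≤ k) (hM : 1 ≤ M) (u v : ℝ)
    (huv : u ≤ v) (z w : ℕ × ℕ)
    (hz : z ∈ (Ioc M N) ×ˢ (Ioc M N)) (hw : w ∈ pr M N (z.1 + z.2)) :
    ∫ t in u..v, ‖gm c z w‖ * Real.cos (2 * Real.pi *
      (t * (((z.1 : ℝ) ^ k + (z.2 : ℝ) ^ k) - ((w.1 : ℝ) ^ k + (w.2 : ℝ) ^ k))) + Complex.arg (gm c z w)) ≤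
      (if w = z then (v - u) else 0) + (if w = (z.2, z.1) then (v - u) else 0) +
        1 / (M : ℝ) ^ (k - 4) * hc z.1 w.1 w.2 := by
  unfold pr at hw
  rw [Finset.mem_filter, Finset.mem_product, Finset.mem_Ioc, Finset.mem_Ioc] at hw
  rw [Finset.mem_product, Finset.mem_Ioc, Finset.mem_Ioc] at hz
  obtain ⟨⟨⟨hw1, hw2⟩, hw3, hw4⟩, hw5⟩ := hw
  obtain ⟨⟨hz1, hz2⟩, hz3, hz4⟩ := hz
  have hM0 : (1 : ℝ) ≤ M := by exact_mod_cast hM
  have hvu : 0 ≤ v - u := by linarith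
  have hn : 0 ≤ 1 / (M : ℝ) ^ (k - 4) * hc z.1 w.1 w.2 :=
    mul_nonneg (by positivity) (hc_nonneg z.1 w.1 w.2)
  have e1 : (0:ℝ) ≤ (if w = z then (v - u) else 0) := by split_ifs <;> linarith
  have e2 : (0:ℝ) ≤ (if w = (z.2, z.1) then (v - u) else 0) := by split_ifs <;> linarith
  have hg := gm_norm hcn z w
  by_cases c1 : w.1 = z.1
  · have c2 : w = z := by
      ext
      · exact c1
      · omega
    have := int_le ‖gm c z w‖ (Complex.arg (gm c z w))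
      (((z.1 : ℝ) ^ k + (z.2 : ℝ) ^ k) - ((w.1 : ℝ) ^ k + (w.2 : ℝ) ^ k)) u v (norm_nonneg _) hg huv
    rw [if_pos c2]
    linarith
  by_cases c3 : w.2 = z.1
  · have c4 : w = (z.2, z.1) := by
      ext
      · change w.1 = z.2
        omega
      · exact c3
    have := int_le ‖gm c z w‖ (Complex.arg (gm c z w))
      (((z.1 : ℝ) ^ k + (z.2 : ℝ) ^ k) - ((w.1 : ℝ) ^ k + (w.2 : ℝ) ^ k)) u v (norm_nonneg _) hg huv
    rw [if_pos c4]
    linarith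
  have hsum : (z.1 : ℝ) + z.2 = w.1 + w.2 := by exact_mod_cast hw5.symm
  have hd := Pool.Agent.W225.MWD.key (z.1 : ℝ) (z.2 : ℝ) (w.1 : ℝ) (w.2 : ℝ) (Nat.cast_nonneg _)
    (Nat.cast_nonneg _) (Nat.cast_nonneg _) (Nat.cast_nonneg _) hsum (k - 2)
  rw [show k - 2 + 2 = k by omega] at hd
  set Mx : ℝ := max (max (z.1 : ℝ) (z.2 : ℝ)) (max (w.1 : ℝ) (w.2 : ℝ)) with hMx
  have hxM : (z.1 : ℝ) ≤ Mx := (le_max_left _ _).trans (le_max_left _ _)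
  have hzM : (M : ℝ) ≤ z.1 := by exact_mod_cast hz1.le
  have hz0 : (0 : ℝ) < z.1 := by linarith
  have a1 : 0 < |(z.1 : ℝ) - (w.1 : ℝ)| := by
    rw [abs_pos, sub_ne_zero]
    intro h
    exact c1 (by exact_mod_cast h.symm)
  have a2 : 0 < |(z.1 : ℝ) - (w.2 : ℝ)| := by
    rw [abs_pos, sub_ne_zero]
    intro h
    exact c3 (by exact_mod_cast h.symm)
  have a3 : (M : ℝ) ^ (k - 4) * (z.1 : ℝ) ^ 2 ≤ Mx ^ (k - 2) := by
    calc (M : ℝ) ^ (k - 4) * (z.1 : ℝ) ^ 2 ≤ Mx ^ (k - 4) * Mx ^ 2 := by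
          gcongr
          linarith
      _ = Mx ^ (k - 2) := by rw [← pow_add]; congr 1; omega
  have a4 : (M : ℝ) ^ (k - 4) * (|(z.1 : ℝ) - (w.1 : ℝ)| * |(z.1 : ℝ) - (w.2 : ℝ)| * (z.1 : ℝ) ^ 2) ≤
      |((z.1 : ℝ) ^ k + (z.2 : ℝ) ^ k) - ((w.1 : ℝ) ^ k + (w.2 : ℝ) ^ k)| := by
    have b1 : |(z.1 : ℝ) - (w.1 : ℝ)| * |(z.1 : ℝ) - (w.2 : ℝ)| * ((M : ℝ) ^ (k - 4) * (z.1 : ℝ) ^ 2) ≤
        |(z.1 : ℝ) - (w.1 : ℝ)| * |(z.1 : ℝ) - (w.2 : ℝ)| * Mx ^ (k - 2) :=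
      mul_le_mul_of_nonneg_left a3 (by positivity)
    have b2 : (z.1 : ℝ) ^ k + (z.2 : ℝ) ^ k - (w.1 : ℝ) ^ k - (w.2 : ℝ) ^ k =
        ((z.1 : ℝ) ^ k + (z.2 : ℝ) ^ k) - ((w.1 : ℝ) ^ k + (w.2 : ℝ) ^ k) := by ring
    rw [b2] at hd
    calc _ = |(z.1 : ℝ) - (w.1 : ℝ)| * |(z.1 : ℝ) - (w.2 : ℝ)| *
          ((M : ℝ) ^ (k - 4) * (z.1 : ℝ) ^ 2) := by ring
      _ ≤ _ := b1.trans hd
  have a5 : 0 < (M : ℝ) ^ (k - 4) *
      (|(z.1 : ℝ) - (w.1 : ℝ)| * |(z.1 : ℝ) - (w.2 : ℝ)| * (z.1 : ℝ) ^ 2) := by positivity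
  have a6 : ((z.1 : ℝ) ^ k + (z.2 : ℝ) ^ k) - ((w.1 : ℝ) ^ k + (w.2 : ℝ) ^ k) ≠ 0 := by
    intro h
    rw [h, abs_zero] at a4
    linarith
  have a7 := int_le2 ‖gm c z w‖ (Complex.arg (gm c z w)) _ u v (norm_nonneg _) hg a6
  have a8 : 1 / (M : ℝ) ^ (k - 4) * hc z.1 w.1 w.2 = 1 / ((M : ℝ) ^ (k - 4) *
      (|(z.1 : ℝ) - (w.1 : ℝ)| * |(z.1 : ℝ) - (w.2 : ℝ)| * (z.1 : ℝ) ^ 2)) := by
    unfold hc
    rw [if_pos ⟨c1, c3⟩, one_div_mul_one_div]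
  have a9 := one_div_le_one_div_of_le a5 a4
  rw [← a8] at a9
  linarith

end Pool.Agent.Q56.SI
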