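import Pool.Agent.Q56.SI.Fin

/-!
# Large values over every interval
-/

set_option autoImplicit false

open Finset MeasureTheory

namespace Pool.Agent.Q56.SI

open Pool.Agent.W928.MW (e e_add e_norm)

/-- the full sum -/
noncomputable def full (c : ℕ → ℂ) (k N : ℕ) (t ξ : ℝ) : ℂ :=
  ∑ n ∈ Icc 1 N, c n * e (t * (n : ℝ) ^ k + ξ * (n : ℝ))

lemma full_le (c : ℕ → ℂ) (hcn : ∀ n, ‖c n‖ ≤ 1) (k M N : ℕ) (hMN : M ≤ N) (t ξ : ℝ) :
    ‖full c k N t ξ‖ ≤ M + ‖sc c k M N t ξ‖ := by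
  have h : Icc 1 N = Icc 1 M ∪ Ioc M N := by
    ext n
    simp only [mem_union, mem_Icc, mem_Ioc]
    omega
  have hd : Disjoint (Icc 1 M) (Ioc M N) := by
    rw [Finset.disjoint_left]
    intro n h1 h2
    rw [mem_Icc] at h1
    rw [mem_Ioc] at h2
    omega
  unfold full sc
  rw [h, Finset.sum_union hd]
  refine (norm_add_le _ _).trans ?_
  have h1 : ‖∑ n ∈ Icc 1 M, c n * e (t * (n : ℝ) ^ k + ξ * (n : ℝ))‖ ≤ (M : ℝ) := by
    refine (norm_sum_le _ _).trans ?_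
    calc _ ≤ ∑ n ∈ Icc 1 M, (1 : ℝ) := by
          apply Finset.sum_le_sum
          intro n _
          rw [norm_mul, e_norm, mul_one]
          exact hcn n
      _ = M := by simp
  linarith

/-- the threshold -/
lemma thr (k : ℕ) (ε : ℝ) (hε : 0 < ε) : ∃ N₀ : ℕ, 1 ≤ N₀ ∧ ∀ N : ℕ, N₀ ≤ N →
    192 * 2 ^ k * (1 + Real.log N) ^ 2 ≤ (N : ℝ) ^ ε := by
  set K : ℝ := 192 * 2 ^ k * (1 + 4 / ε) ^ 2 with hK
  have hK0 : 0 < K := by positivity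
  refine ⟨⌈K ^ (2 / ε)⌉₊ + 1, by omega, fun N hN => ?_⟩
  have hN1 : (1 : ℝ) ≤ N := by
    have : 1 ≤ N := by omega
    exact_mod_cast this
  have hN0 : (0 : ℝ) < N := by linarith
  have h1 : K ^ (2 / ε) ≤ N := by
    have h2 := Nat.le_ceil (K ^ (2 / ε))
    have h3 : ((⌈K ^ (2 / ε)⌉₊ : ℕ) : ℝ) ≤ N := by
      have : ⌈K ^ (2 / ε)⌉₊ ≤ N := by omega
      exact_mod_cast this
    linarith
  have h2 : K ≤ (N : ℝ) ^ (ε / 2) := by
    have h3 := Real.rpow_le_rpow (by positivity) h1 (by positivity : (0 : ℝ) ≤ ε / 2)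
    rw [← Real.rpow_mul hK0.le, show 2 / ε * (ε / 2) = 1 by field_simp, Real.rpow_one] at h3
    exact h3
  have h4 : Real.log N ≤ (N : ℝ) ^ (ε / 4) / (ε / 4) := Real.log_le_rpow_div hN0.le (by positivity)
  have h5 : (1 : ℝ) ≤ (N : ℝ) ^ (ε / 4) := Real.one_le_rpow hN1 (by positivity)
  have h6 : 1 + Real.log N ≤ (N : ℝ) ^ (ε / 4) * (1 + 4 / ε) := by
    have : (N : ℝ) ^ (ε / 4) / (ε / 4) = (N : ℝ) ^ (ε / 4) * (4 / ε) := by field_simp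
    rw [this] at h4
    nlinarith
  have h7 : 0 ≤ 1 + Real.log N := by
    have := Real.log_nonneg hN1
    linarith
  have h8 : (1 + Real.log N) ^ 2 ≤ (N : ℝ) ^ (ε / 2) * (1 + 4 / ε) ^ 2 := by
    calc (1 + Real.log N) ^ 2 ≤ ((N : ℝ) ^ (ε / 4) * (1 + 4 / ε)) ^ 2 := pow_le_pow_left₀ h7 h6 2
      _ = _ := by
        rw [mul_pow, ← Real.rpow_natCast ((N : ℝ) ^ (ε / 4)) 2, ← Real.rpow_mul hN0.le]
        congr 2
        push_cast
        ring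
  calc 192 * 2 ^ k * (1 + Real.log N) ^ 2 ≤
        192 * 2 ^ k * ((N : ℝ) ^ (ε / 2) * (1 + 4 / ε) ^ 2) := mul_le_mul_of_nonneg_left h8 (by positivity)
    _ = K * (N : ℝ) ^ (ε / 2) := by rw [hK]; ring
    _ ≤ (N : ℝ) ^ (ε / 2) * (N : ℝ) ^ (ε / 2) := mul_le_mul_of_nonneg_right h2 (by positivity)
    _ = (N : ℝ) ^ ε := by
      rw [← Real.rpow_add hN0]
      congr 1
      ring

theorem large (k : ℕ) (hk : 4 ≤ k) (ε : ℝ) (hε : 0 < ε) : ∃ N₀ : ℕ, 1 ≤ N₀ ∧ ∀ N : ℕ, N₀ ≤ N →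
    ∀ η : ℝ, 0 ≤ η → η ≤ 1 → ∀ c : ℕ → ℂ, (∀ n, ‖c n‖ ≤ 1) → ∀ u L : ℝ, 0 ≤ L →
    volume {t : ℝ | t ∈ Set.Icc u (u + L) ∧ ∃ ξ : ℝ, (N : ℝ) ^ (1 - η + ε) ≤ ‖full c k N t ξ‖} ≤
      ENNReal.ofReal ((N : ℝ) ^ (-(3 * ε)) * (L * (N : ℝ) ^ (4 * η - 1) +
        (N : ℝ) ^ (((k : ℝ) + 1) * η - k))) := by
  obtain ⟨N₀, hN₀, hthr⟩ := thr k ε hε
  refine ⟨N₀, hN₀, fun N hN η hη0 hη1 c hcn u L hL => ?_⟩
  have hN1' : 1 ≤ N := hN₀.trans hN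
  have hN1 : (1 : ℝ) ≤ N := by exact_mod_cast hN1'
  have hN0 : (0 : ℝ) < N := by linarith
  have ht := hthr N hN
  set X : ℝ := (N : ℝ) ^ (1 - η) with hX
  set E : ℝ := (N : ℝ) ^ ε with hE
  set l : ℝ := 1 + Real.log N with hl
  have hl1 : 1 ≤ l := by
    have := Real.log_nonneg hN1
    linarith
  have h2k : (1 : ℝ) ≤ 2 ^ k := one_le_pow₀ (by norm_num)
  have hE192 : 192 ≤ E := by
    have h1 : (1 : ℝ) ≤ 2 ^ k * l ^ 2 := by
      have : (1 : ℝ) ≤ l ^ 2 := one_le_pow₀ hl1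
      nlinarith
    nlinarith
  have hE0 : 0 < E := by linarith
  have hX1 : 1 ≤ X := Real.one_le_rpow hN1 (by linarith)
  have hX0 : 0 < X := by linarith
  have hXN : X ≤ N := by
    have := Real.rpow_le_rpow_of_exponent_le hN1 (by linarith : 1 - η ≤ 1)
    rw [Real.rpow_one] at this
    exact this
  set M : ℕ := ⌊X⌋₊ with hM
  have hM1 : 1 ≤ M := Nat.le_floor (by simpa using hX1)
  have hMX : (M : ℝ) ≤ X := Nat.floor_le hX0.le
  have hMX2 : X ≤ 2 * M := by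
    have h1 := Nat.lt_floor_add_one X
    have h2 : (1 : ℝ) ≤ M := by exact_mod_cast hM1
    linarith
  have hMN : M ≤ N := by
    have : (M : ℝ) ≤ N := hMX.trans hXN
    exact_mod_cast this
  have hM0 : (0 : ℝ) < M := by exact_mod_cast hM1
  have hlam0 : 0 < X * E / 2 := by positivity
  have hXE : (N : ℝ) ^ (1 - η + ε) = X * E := Real.rpow_add hN0 _ _
  have hsub : {t : ℝ | t ∈ Set.Icc u (u + L) ∧ ∃ ξ : ℝ, (N : ℝ) ^ (1 - η + ε) ≤ ‖full c k N t ξ‖} ⊆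
      {t : ℝ | t ∈ Set.Icc u (u + L) ∧ ∃ ξ : ℝ, X * E / 2 ≤ ‖sc c k M N t ξ‖} := by
    rintro t ⟨ht1, ξ, hξ⟩
    refine ⟨ht1, ξ, ?_⟩
    have h1 := full_le c hcn k M N hMN t ξ
    rw [hXE] at hξ
    have h2 : X * 2 ≤ X * E := mul_le_mul_of_nonneg_left (by linarith) hX0.le
    linarith
  refine (measure_mono hsub).trans ?_
  have hint := int_main c hcn k M N hk hM1 hMN u (u + L) (by linarith)
  rw [show u + L - u = L by ring] at hint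
  refine (meas_le c k M N u (u + L) (X * E / 2) _ (by linarith) hlam0 hint).trans ?_
  apply ENNReal.ofReal_le_ofReal
  have hN3 : (N : ℝ) ^ (4 * η - 1) = (N : ℝ) ^ 3 / X ^ 4 := by
    rw [hX, ← Real.rpow_natCast ((N : ℝ) ^ (1 - η)) 4, ← Real.rpow_mul hN0.le,
      ← Real.rpow_natCast (N : ℝ) 3, ← Real.rpow_sub hN0]
    congr 1
    push_cast
    ring
  have hNk : (N : ℝ) ^ (((k : ℝ) + 1) * η - k) = (N : ℝ) / X ^ (k + 1) := by
    rw [hX, ← Real.rpow_natCast ((N : ℝ) ^ (1 - η)) (k + 1), ← Real.rpow_mul hN0.le]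
    nth_rewrite 2 [← Real.rpow_one (N : ℝ)]
    rw [← Real.rpow_sub hN0]
    congr 1
    push_cast
    ring
  have hE3 : (N : ℝ) ^ (-(3 * ε)) = 1 / E ^ 3 := by
    rw [Real.rpow_neg hN0.le, hE, ← Real.rpow_natCast ((N : ℝ) ^ ε) 3, ← Real.rpow_mul hN0.le,
      one_div]
    congr 2
    push_cast
    ring
  rw [hN3, hNk, hE3]
  have hA : 4 * l ^ 2 / (M : ℝ) ^ (k - 3) ≤ 4 * l ^ 2 * (2 ^ k / X ^ (k - 3)) := by
    rw [div_eq_mul_one_div]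
    apply mul_le_mul_of_nonneg_left _ (by positivity)
    rw [div_le_div_iff₀ (by positivity) (by positivity), one_mul]
    calc X ^ (k - 3) ≤ (2 * (M : ℝ)) ^ (k - 3) := pow_le_pow_left₀ hX0.le hMX2 _
      _ = 2 ^ (k - 3) * (M : ℝ) ^ (k - 3) := mul_pow _ _ _
      _ ≤ 2 ^ k * (M : ℝ) ^ (k - 3) := by
        apply mul_le_mul_of_nonneg_right _ (by positivity)
        exact pow_le_pow_right₀ (by norm_num) (by omega)
  have hB : (2 * (N : ℝ) + 1) * (2 * (N : ℝ) ^ 2 * L + 4 * l ^ 2 / (M : ℝ) ^ (k - 3)) ≤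
      (3 * (N : ℝ)) * (2 * (N : ℝ) ^ 2 * L + 4 * l ^ 2 * (2 ^ k / X ^ (k - 3))) := by
    apply mul_le_mul (by linarith) (by linarith) (by positivity) (by positivity)
  have hC : (3 * (N : ℝ)) * (2 * (N : ℝ) ^ 2 * L + 4 * l ^ 2 * (2 ^ k / X ^ (k - 3))) / (X * E / 2) ^ 4 =
      (96 * (L * ((N : ℝ) ^ 3 / X ^ 4)) + (192 * 2 ^ k * l ^ 2) * ((N : ℝ) / X ^ (k + 1))) / E ^ 4 := by
    have hXk : X ^ (k + 1) = X ^ (k - 3) * X ^ 4 := by
      rw [← pow_add]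
      congr 1
      omega
    rw [hXk]
    have a1 : X ^ (k - 3) ≠ 0 := by positivity
    generalize X ^ (k - 3) = Y at a1 ⊢
    generalize (2 : ℝ) ^ k = Z
    field_simp
    ring
  have hD : (96 * (L * ((N : ℝ) ^ 3 / X ^ 4)) + (192 * 2 ^ k * l ^ 2) * ((N : ℝ) / X ^ (k + 1))) / E ^ 4 ≤
      (E * (L * ((N : ℝ) ^ 3 / X ^ 4)) + E * ((N : ℝ) / X ^ (k + 1))) / E ^ 4 := by
    apply div_le_div_of_nonneg_right _ (by positivity)
    apply add_le_add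
    · apply mul_le_mul_of_nonneg_right _ (by positivity)
      linarith
    · exact mul_le_mul_of_nonneg_right ht (by positivity)
  have hF : (E * (L * ((N : ℝ) ^ 3 / X ^ 4)) + E * ((N : ℝ) / X ^ (k + 1))) / E ^ 4 =
      1 / E ^ 3 * (L * ((N : ℝ) ^ 3 / X ^ 4) + (N : ℝ) / X ^ (k + 1)) := by
    field_simp
  calc _ ≤ (3 * (N : ℝ)) * (2 * (N : ℝ) ^ 2 * L + 4 * l ^ 2 * (2 ^ k / X ^ (k - 3))) /
        (X * E / 2) ^ 4 := div_le_div_of_nonneg_right hB (by positivity)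
    _ ≤ _ := by rw [hC, ← hF]; exact hD

end Pool.Agent.Q56.SI
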